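import Mathlib
import Pool.Agent.Helper884.LieId.Upper

set_option autoImplicit false

namespace Pool.Agent.Results.MP_a9fd20_al.UpperBound

open Pool.Agent.Helper884.LieId

attribute [local instance 100] LieRing.ofAssociativeRing

/-- For every `n ≥ 3` there is a nonzero element of the free Lie algebra, homogeneous of degree
`4n - 4`, which vanishes identically on `gl_n(K)`, hence on `sl_n(K)`; so `m_n ≤ 4n - 4`. -/
theorem result (K : Type) [Field K] [CharZero K] (n : ℕ) (hn : 3 ≤ n) :
    (∃ f ∈ Homog K (4 * n - 4),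
      IsLieIdentity K (Matrix (Fin n) (Fin n) K) f ∧
      IsLieIdentity K (LieAlgebra.SpecialLinear.sl (Fin n) K) f) ∧
    minDeg K n ≤ 4 * n - 4 := by
  obtain ⟨M, rfl⟩ := Nat.exists_eq_add_of_le' hn
  obtain ⟨f, hf, hf0, hf1⟩ := exists_identity K M
  have hd : 4 * (M + 3) - 4 = 4 * M + 8 := by omega
  have hsl : IsLieIdentity K (LieAlgebra.SpecialLinear.sl (Fin (M + 3)) K) f := by
    refine ⟨hf0, fun a => ?_⟩
    have h1 : ((LieAlgebra.SpecialLinear.sl (Fin (M + 3)) K).incl).comp
        (FreeLieAlgebra.lift K a) = FreeLieAlgebra.lift K fun i => (a i).val := by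
      apply FreeLieAlgebra.hom_ext
      intro x
      rw [LieHom.comp_apply, FreeLieAlgebra.lift_of_apply, FreeLieAlgebra.lift_of_apply]
      rfl
    apply Subtype.ext
    have h2 := hf1 fun i => (a i).val
    rw [← h1, LieHom.comp_apply] at h2
    exact h2
  rw [hd]
  have hle : Homog K (4 * M + 8) ≤ DegLE K (4 * M + 8) := by
    apply Submodule.span_mono
    intro x hx
    exact ⟨4 * M + 8, le_rfl, hx⟩
  exact ⟨⟨f, hf, ⟨hf0, hf1⟩, hsl⟩, Nat.sInf_le ⟨f, hle hf, hsl⟩⟩

end Pool.Agent.Results.MP_a9fd20_al.UpperBound
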